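import Pool.Agent.H88.EQ.KEYK
import Pool.Agent.H92.EM.TB

/-!
Row MK1 of the board `emd_modules`.
-/

namespace Pool.Agent.H70.EM

open Pool.Agent.H92.EQ Pool.Agent.H92.EM Pool.Agent.H88.EQ.KEYrow
open scoped BigOperators ComplexConjugate ContDiff Topology
open MeasureTheory

noncomputable section

/-- The inequality behind both key estimates. -/
theorem core (hKB : T_MKB) (hKA : T_KA) (hKI : T_MKI) (hP1 : T_P1) (hP3 : T_P3) (hP5 : T_P5)
    (hL1 : T_L1) (hL3 : T_L3) (hD12 : T_D12) {m k d p q : ℕ}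
    {F : Fin (k + 1) → MvPolynomial (Fin (k + 1)) ℂ} (hmk : m ≤ k) (hk : 0 < k) (hd : 2 ≤ d)
    (hpq : p + q = k) (hE : IsM m d F)
    {CJ : ℝ} (hCJ1 : 1 ≤ CJ) (hCJ : ∀ z, z ≠ 0 → nv (lowP m F) ((k + 1 - m) * (d - 1)) z ≤ CJ)
    (l i : ℕ) {δ r h : ℝ} {S : Form (Fin (k + 1)) p} (hδ : 0 < δ) (hr : 0 < r) (hr1 : r ≤ 1)
    (hh : 0 ≤ h) {K : Set (Fin (k + 1) → ℂ)} (hHit : HitL m F d K i r h) (hS : ProjForm S)
    (hSK : InK K S)
    (hmass : mass q S = mass q (om (k + 1) p)) :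
    δ * (d : ℝ) ^ (i + l) * betaL m F d (i + l) i q (Real.exp (-(δ * (d : ℝ) ^ (i + l)))) S ≤
      (δ * (d : ℝ) ^ (i + l) * h + Real.log (1 / r) + (1 / 2) * Real.log (CJ ^ 2 + 1)) *
        mass q (om (k + 1) p) +
      (((k + 1 - m) * (d - 1) : ℕ) : ℝ) * (d : ℝ) ^ l *
        (pair (fun z => Gn F d l z - (1 / (d : ℝ) ^ l) * we (lowP m F) ((k + 1 - m) * (d - 1))
            (Real.exp (-(δ * (d : ℝ) ^ (i + l)))) (ev (iter F l) z))
          (Sn F d (i + l) S) (fun _ : Fin q => ell) -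
        pair (fun z => Gn F d l z - (1 / (d : ℝ) ^ l) * we (lowP m F) ((k + 1 - m) * (d - 1))
            (Real.exp (-(δ * (d : ℝ) ^ (i + l)))) (ev (iter F l) z))
          (Sn F d (i + l) S) (fun _ : Fin q => Gn F d (i + l))) := by
  have hF := hE.isH
  have hN : p + q + 1 = k + 1 := by omega
  have hN0 : 0 < k + 1 := by omega
  have hd1 : 1 ≤ d := by omega
  have hdr : (0 : ℝ) < d := by exact_mod_cast (by omega : 0 < d)
  set X : ℝ := δ * (d : ℝ) ^ (i + l) with hX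
  have hX0 : 0 < X := by positivity
  set ε : ℝ := Real.exp (-X) with hε
  have hε0 : 0 < ε := Real.exp_pos _
  have hε1 : ε ≤ 1 := by rw [hε]; exact Real.exp_le_one_iff.mpr (by linarith)
  set Mn : ℕ := (k + 1 - m) * (d - 1) with hMn
  obtain ⟨-, -, -, -, -, -, hwe, -⟩ := hKB m k d F hmk hk hd hE
  obtain ⟨hwPot, hwid⟩ := hwe ε hε0
  rw [← hMn] at hwPot hwid
  set w : (Fin (k + 1) → ℂ) → ℝ := we (lowP m F) Mn ε with hw
  have hit := (hD12 (k + 1) d F hd1 hF 0 l).1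
  have hSn : ProjForm (Sn F d (i + l) S) := (hD12 (k + 1) d F hd1 hF 0 (i + l)).2.2.2.2 p S hS
  have hmassn : mass q (Sn F d (i + l) S) = mass q (om (k + 1) p) := by
    rw [((hP5 (k + 1) p q d S hN hS).2.1 F (i + l) hd1 hF), hmass]
  have hellPot : Pot (ell : (Fin (k + 1) → ℂ) → ℝ) := (hL3 (k + 1)).1
  have hell : LH 1 (ell : (Fin (k + 1) → ℂ) → ℝ) := (hL1 (k + 1) 0 0 0 0 ell ell).2.2.1 hellPot
  have hwLH : LH 1 w := (hL1 (k + 1) 0 0 0 0 w w).2.2.1 hwPot
  -- the function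
  let φ0 : (Fin (k + 1) → ℂ) → ℝ := fun z => (Mn : ℝ) * ell z + (-(Mn : ℝ)) * w z
  have hφ0LH : LH ((Mn : ℝ) * 1 + (-(Mn : ℝ)) * 1) φ0 :=
    (hL1 (k + 1) 1 1 Mn (-(Mn : ℝ)) ell w).1 hell hwLH
  have hφ0LH' : LH 0 φ0 := by
    have e : (Mn : ℝ) * 1 + (-(Mn : ℝ)) * 1 = 0 := by ring
    rwa [e] at hφ0LH
  have hφ0 : Hom0 φ0 := (hL1 (k + 1) 0 0 0 0 φ0 φ0).2.1.mpr hφ0LH'
  have hφ0v : ∀ z, z ≠ 0 → φ0 z = -((1 / 2) * Real.log (nv (lowP m F) Mn z ^ 2 + ε ^ 2)) := by
    intro z hz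
    have := hwid z hz
    simp only [φ0]
    linarith
  have hFm0 : ∀ z, z ≠ 0 → ev (iter F l) z ≠ 0 := fun z hz h => hz (hit.nd z h)
  have hφm : LH (((d ^ l : ℕ) : ℝ) * 0) (fun z => φ0 (ev (iter F l) z)) :=
    (hL1 (k + 1) 0 0 0 0 φ0 φ0).2.2.2 (d ^ l) (iter F l) hit hφ0LH'
  have hnv0 : ∀ z, 0 ≤ nv (lowP m F) Mn z := by
    intro z
    unfold nv nrm
    positivity
  have hb0 : Real.log 2 ≤ Real.log (CJ ^ 2 + 1) :=
    Real.log_le_log (by norm_num) (by nlinarith)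
  -- the scaling
  have hscale : ∀ u : Fin q → (Fin (k + 1) → ℂ) → ℝ,
      pair (fun z => φ0 (ev (iter F l) z)) (Sn F d (i + l) S) u =
      (Mn : ℝ) * (d : ℝ) ^ l * pair (fun z => Gn F d l z - (1 / (d : ℝ) ^ l) *
        w (ev (iter F l) z)) (Sn F d (i + l) S) u := by
    intro u
    rw [← pair_cmul]
    congr 1
    funext z
    simp only [φ0, Gn]
    field_simp
    ring
  -- integrability
  have hQ := (hP3 (k + 1) p q (Sn F d (i + l) S) (fun _ => ell) hN hSn (fun _ => hellPot)).1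
  have hmassn2 : pair (fun _ => 1) (Sn F d (i + l) S) (fun _ : Fin q => ell) =
      mass q (om (k + 1) p) := hmassn
  have hp1 := hP1 (k + 1) p q (Sn F d (i + l) S) (fun _ => ell) (fun _ => 1) hN hSn (fun _ => hell)
  have hadm1 : Adm (Sn F d (i + l) S) (fun _ : Fin q => ell) (fun z =>
      Set.indicator (CrL m F d ε) (fun _ => (1 : ℝ)) (ev (iter F l) z)) := by
    refine hp1.1 _ 1 ?_ ?_
    · have hm : MeasurableSet (CrL m F d ε) :=
        measurableSet_lt (measurable_nv _ _) measurable_const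
      exact (measurable_const.indicator hm).comp (continuous_ev _).measurable
    · intro z _
      by_cases hz : ev (iter F l) z ∈ CrL m F d ε
      · rw [Set.indicator_of_mem hz]; simp
      · rw [Set.indicator_of_notMem hz]; simp
  have hadm2 : Adm (Sn F d (i + l) S) (fun _ : Fin q => ell)
      (fun z => φ0 (ev (iter F l) z)) := hp1.2 _ hφm.smooth.continuousOn
  have hadm3 : Adm (Sn F d (i + l) S) (fun _ : Fin q => ell) (fun _ => (1 : ℝ)) :=
    hp1.2 _ continuousOn_const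
  -- Chebyshev
  have hcheb : X * betaL m F d (i + l) i q ε S ≤
      pair (fun z => φ0 (ev (iter F l) z)) (Sn F d (i + l) S) (fun _ : Fin q => ell) +
        (1 / 2) * Real.log (CJ ^ 2 + 1) * mass q (om (k + 1) p) := by
    unfold betaL
    rw [Nat.add_sub_cancel_left, ← hmassn2, ← pair_cmul, ← pair_cmul,
      ← pair_add hadm2 (hadm3.cmul _)]
    refine pair_mono hN0 hQ (hadm1.cmul _) (hadm2.add (hadm3.cmul _)) fun z hz => ?_
    rw [hφ0v _ (hFm0 z hz)]
    have h1 := hCJ _ (hFm0 z hz)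
    have h2 := hnv0 (ev (iter F l) z)
    by_cases hz' : ev (iter F l) z ∈ CrL m F d ε
    · rw [Set.indicator_of_mem hz']
      have h3 : nv (lowP m F) Mn (ev (iter F l) z) < ε := hz'
      have h4 : Real.log (nv (lowP m F) Mn (ev (iter F l) z) ^ 2 + ε ^ 2) ≤
          Real.log (2 * ε ^ 2) := by
        refine Real.log_le_log (by positivity) ?_
        nlinarith
      have h5 : Real.log (2 * ε ^ 2) = Real.log 2 - 2 * X := by
        rw [Real.log_mul (by norm_num) (by positivity), Real.log_pow, hε, Real.log_exp]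
        push_cast
        ring
      rw [h5] at h4
      linarith
    · rw [Set.indicator_of_notMem hz']
      have h4 : Real.log (nv (lowP m F) Mn (ev (iter F l) z) ^ 2 + ε ^ 2) ≤
          Real.log (CJ ^ 2 + 1) := by
        refine Real.log_le_log (by positivity) ?_
        nlinarith
      linarith
  -- KI
  have hki : pair (fun z => φ0 (ev (iter F l) z)) (Sn F d (i + l) S)
      (fun _ : Fin q => Gn F d (i + l)) ≤ (X * h + Real.log (1 / r)) * mass q (om (k + 1) p) := by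
    have hlr : 0 ≤ Real.log (1 / r) := Real.log_nonneg (by
      rw [le_div_iff₀ hr]; linarith)
    refine hKI m k d p q l i F K S φ0 h r X (Real.log (1 / r)) hd hpq hE hS hSK hmass hφ0 hh
      hX0.le hlr hHit ?_ ?_
    · intro z hz
      rw [hφ0v z hz]
      have h4 : Real.log (ε ^ 2) ≤ Real.log (nv (lowP m F) Mn z ^ 2 + ε ^ 2) :=
        Real.log_le_log (by positivity) (by nlinarith [hnv0 z])
      rw [Real.log_pow, hε, Real.log_exp] at h4
      push_cast at h4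
      rw [hε]
      linarith
    · intro z hz hz'
      rw [hφ0v z hz]
      have h3 : r ≤ nv (lowP m F) Mn z := not_lt.mp hz'
      have h4 : Real.log (r ^ 2) ≤ Real.log (nv (lowP m F) Mn z ^ 2 + ε ^ 2) :=
        Real.log_le_log (by positivity) (by nlinarith)
      rw [Real.log_pow] at h4
      push_cast at h4
      have h5 : Real.log (1 / r) = -Real.log r := by rw [one_div, Real.log_inv]
      rw [h5]
      linarith
  have hs1 := hscale (fun _ : Fin q => ell)
  have hs2 := hscale (fun _ : Fin q => Gn F d (i + l))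
  rw [mul_sub, ← hs1, ← hs2]
  have hfin : (X * h + Real.log (1 / r) + 1 / 2 * Real.log (CJ ^ 2 + 1)) * mass q (om (k + 1) p) =
      (X * h + Real.log (1 / r)) * mass q (om (k + 1) p) +
      1 / 2 * Real.log (CJ ^ 2 + 1) * mass q (om (k + 1) p) := by ring
  rw [hfin]
  linarith

theorem pf_MK1 (hKA : T_KA) (hKB : T_MKB) (hKE : T_KE) (hKI : T_MKI) (hP1 : T_P1)
    (hP3 : T_P3) (hP5 : T_P5) (hL1 : T_L1) (hL3 : T_L3) (hD12 : T_D12) : T_MK1 := by
  intro m k d p q F hmk hk hd hpq hE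
  have hF := hE.isH
  have hN : p + q + 1 = k + 1 := by omega
  have hN0 : 0 < k + 1 := by omega
  have hd1 : 1 ≤ d := by omega
  have hdr : (0 : ℝ) < d := by exact_mod_cast (by omega : 0 < d)
  obtain ⟨CJ, hCJ1, hCJ⟩ := (hKB m k d F hmk hk hd hE).2.2.2.2.2.1
  obtain ⟨hGpot, hGrel, B, hB, hGB, -⟩ := hKA (k + 1) d F hd hF
  have hellPot : Pot (ell : (Fin (k + 1) → ℂ) → ℝ) := (hL3 (k + 1)).1
  set b0 : ℝ := (1 / 2) * Real.log (CJ ^ 2 + 1) with hb0
  have hb0' : 0 ≤ b0 := by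
    rw [hb0]
    exact mul_nonneg (by norm_num) (Real.log_nonneg (by nlinarith))
  set K : ℝ := 2 * q * (((k + 1 - m) * (d - 1) : ℕ) : ℝ) * B with hK
  have hK0 : 0 ≤ K := by positivity
  refine ⟨K + b0 + 1, by positivity, ?_⟩
  intro KK n i δ r h S hin hδ hr hr1 hh hHit hS hSK hmass
  obtain ⟨l, rfl⟩ : ∃ l, n = i + l := ⟨n - i, by omega⟩
  have hcore := core hKB hKA hKI hP1 hP3 hP5 hL1 hL3 hD12 hmk hk hd hpq hE hCJ1 hCJ l i hδ hr hr1 hh
    hHit hS hSK hmass
  have hSn : ProjForm (Sn F d (i + l) S) := (hD12 (k + 1) d F hd1 hF 0 (i + l)).2.2.2.2 p S hS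
  have hmassn : mass q (Sn F d (i + l) S) = mass q (om (k + 1) p) := by
    rw [((hP5 (k + 1) p q d S hN hS).2.1 F (i + l) hd1 hF), hmass]
  have hc0 : 0 ≤ mass q (om (k + 1) p) := by
    rw [← hmass]
    exact (hP5 (k + 1) p q d S hN hS).2.2
  set X : ℝ := δ * (d : ℝ) ^ (i + l) with hX
  have hX0 : 0 < X := by positivity
  have hwPot := ((hKB m k d F hmk hk hd hE).2.2.2.2.2.2.1 (Real.exp (-X)) (Real.exp_pos _)).1
  have hit := (hD12 (k + 1) d F hd1 hF 0 l).1
  have hWPot : Pot (fun z => (1 / (d : ℝ) ^ l) *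
      we (lowP m F) ((k + 1 - m) * (d - 1)) (Real.exp (-X))
      (ev (iter F l) z)) := by
    have := (hL3 (k + 1)).2.2 (d ^ l) (iter F l) _ (Nat.one_le_pow _ _ (by omega)) hit hwPot
    push_cast at this
    exact this
  have hke := hKE (k + 1) p q (Sn F d (i + l) S) _ _ _ _ B hN hSn hWPot (hGpot l) (hGpot (i + l))
    hellPot (hGB (i + l))
  rw [hmassn] at hke
  have hke2 := (abs_le.mp hke).2
  have hlr : 0 ≤ Real.log (1 / r) := Real.log_nonneg (by
    rw [le_div_iff₀ hr]; linarith)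
  set c0 := mass q (om (k + 1) p) with hc0def
  set β := betaL m F d (i + l) i q (Real.exp (-X)) S with hβ
  have hdm : (0 : ℝ) < (d : ℝ) ^ l := by positivity
  have hdi : (0 : ℝ) < (d : ℝ) ^ i := by positivity
  have h1 : X * β ≤ (X * h + Real.log (1 / r) + b0) * c0 + K * (d : ℝ) ^ l * c0 := by
    refine hcore.trans ?_
    refine add_le_add le_rfl ?_
    calc (((k + 1 - m) * (d - 1) : ℕ) : ℝ) * (d : ℝ) ^ l * _ ≤
        (((k + 1 - m) * (d - 1) : ℕ) : ℝ) * (d : ℝ) ^ l * (2 * q * B * c0) :=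
          mul_le_mul_of_nonneg_left hke2 (by positivity)
      _ = K * (d : ℝ) ^ l * c0 := by rw [hK]; ring
  have h2 : β ≤ ((X * h + Real.log (1 / r) + b0) * c0 + K * (d : ℝ) ^ l * c0) / X := by
    rw [le_div_iff₀ hX0]
    linarith
  refine h2.trans ?_
  have h3 : ((X * h + Real.log (1 / r) + b0) * c0 + K * (d : ℝ) ^ l * c0) / X =
      (h + K / (δ * (d : ℝ) ^ i) + (Real.log (1 / r) + b0) / X) * c0 := by
    rw [hX, pow_add]
    field_simp
    ring
  rw [h3]
  refine mul_le_mul_of_nonneg_right ?_ hc0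
  have h4 : K / (δ * (d : ℝ) ^ i) ≤ (K + b0 + 1) / (δ * (d : ℝ) ^ i) :=
    div_le_div_of_nonneg_right (by linarith) (by positivity)
  have h5 : (Real.log (1 / r) + b0) / X ≤ (2 * Real.log (1 / r) + (K + b0 + 1)) / X :=
    div_le_div_of_nonneg_right (by linarith) hX0.le
  linarith

end

end Pool.Agent.H70.EM
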